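import Pool.Agent.Helper70.FS.Linked
set_option autoImplicit false

/-!
Consequences of the Freiheitssatz for subgroups.
-/

open Pool.Agent.Helper45.FH

namespace Pool.Agent.Helper70.FS

/-- a family of subgroups without trivial alternating products generates its free product -/
theorem lift_subtype_injective {G : Type} [Group G] {ι : Type} (A : ι → Subgroup G)
    (h : ∀ l : List (ι × G), (∀ p ∈ l, p.2 ∈ A p.1 ∧ p.2 ≠ 1) →
      l.IsChain (fun a b => a.1 ≠ b.1) → l ≠ [] → (l.map Prod.snd).prod ≠ 1) :
    Function.Injective (Monoid.CoprodI.lift fun i => (A i).subtype) := by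
  classical
  rw [injective_iff_map_eq_one]
  intro x hx
  obtain ⟨w, rfl⟩ := Monoid.CoprodI.Word.equiv.symm.surjective x
  change Monoid.CoprodI.lift _ w.prod = 1 at hx
  change w.prod = 1
  by_contra hne
  have hw : w.toList ≠ [] := by
    intro h0
    apply hne
    rw [Monoid.CoprodI.Word.prod, h0]
    rfl
  refine h (w.toList.map fun p => (p.1, (p.2 : G))) ?_ ?_ ?_ ?_
  · intro p hp
    rw [List.mem_map] at hp
    obtain ⟨q, hq, rfl⟩ := hp
    refine ⟨q.2.2, ?_⟩
    intro h1
    apply w.ne_one q hq
    exact Subtype.ext h1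
  · rw [List.isChain_map]
    exact w.chain_ne
  · intro h0
    exact hw (List.map_eq_nil_iff.1 h0)
  · rw [Monoid.CoprodI.Word.prod, map_list_prod, List.map_map] at hx
    rw [List.map_map, ← hx]
    congr 1

section

variable {G : Type} [Group G] {M : Matroid G}

/-- The Freiheitssatz for subgroups. -/
theorem lift_injective_of_skew (hS : Skew M) {ι : Type} (J : ι → Set G) (A : ι → Subgroup G)
    (hd : Pairwise (Function.onFun Disjoint J)) (hJ : M.Indep (⋃ i, J i))
    (hA : ∀ i, (A i : Set G) ⊆ M.closure (J i)) :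
    Function.Injective (Monoid.CoprodI.lift fun i =>
      ((A i).map (QuotientGroup.mk' (rInf G))).subtype) :=
  lift_injective (rInf G) A fun l hl hc hne =>
    hS ι J hd hJ l (fun p hp => ⟨hA p.1 (hl p hp).1, (hl p hp).2⟩) hc hne

/-- The Freiheitssatz for subgroups which meet `rInf G` trivially. -/
theorem lift_subtype_injective_of_skew (hS : Skew M) {ι : Type} (J : ι → Set G)
    (A : ι → Subgroup G)
    (hd : Pairwise (Function.onFun Disjoint J)) (hJ : M.Indep (⋃ i, J i))
    (hA : ∀ i, (A i : Set G) ⊆ M.closure (J i)) (hN : ∀ i, A i ⊓ rInf G = ⊥) :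
    Function.Injective (Monoid.CoprodI.lift fun i => (A i).subtype) := by
  refine lift_subtype_injective A fun l hl hc hne h1 => ?_
  refine hS ι J hd hJ l (fun p hp => ⟨hA p.1 (hl p hp).1, fun h2 => (hl p hp).2 ?_⟩) hc hne ?_
  · have h3 : p.2 ∈ A p.1 ⊓ rInf G := ⟨(hl p hp).1, h2⟩
    rw [hN] at h3
    exact Subgroup.mem_bot.1 h3
  · rw [h1]
    exact one_mem _

variable (hE : M.E = Set.univ) (h2 : ∀ g, M.Indep {g} ↔ g ∉ rInf G)
  (h4 : ∀ S : Set G, ∃ H : Subgroup G, M.closure S = H)
  (hS : Skew M)

include hE h2 h4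

omit h2 hE in
theorem closure_le (X : Set G) (S : Set G) (h : X ⊆ M.closure S) :
    (Subgroup.closure X : Set G) ⊆ M.closure S := by
  obtain ⟨H, hH⟩ := h4 S
  rw [hH] at h ⊢
  have h5 : Subgroup.closure X ≤ H := (Subgroup.closure_le _).2 h
  exact h5

omit h2 in
theorem exists_base_subset_of_closure (X S : Set G) (hXS : X ⊆ M.closure S)
    (hX : Subgroup.closure X = ⊤) : ∃ B, M.IsBase B ∧ B ⊆ S ∩ M.E := by
  have h5 : M.closure S = M.E := by
    refine Set.Subset.antisymm (M.closure_subset_ground S) ?_
    have := closure_le h4 X S hXS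
    rw [hX, Subgroup.coe_top] at this
    rw [hE]
    exact this
  have h6 : M.Spanning (S ∩ M.E) := by
    rw [Matroid.spanning_iff_closure_eq Set.inter_subset_right, Matroid.closure_inter_ground]
    exact h5
  exact h6.exists_isBase_subset

/-- Given a generator `x` of `G`, either the other generators contain a base, or the subgroup
generated by `x` and the one generated by the other generators satisfy the conditions of the
Freiheitssatz for subgroups. -/
theorem exists_base_or (X : Set G) (hX : Subgroup.closure X = ⊤) (x : G) :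
    (∃ B, M.IsBase B ∧ B ⊆ X \ {x}) ∨ (x ∉ rInf G ∧ ∃ J : Bool → Set G,
      Pairwise (Function.onFun Disjoint J) ∧ M.Indep (⋃ i, J i) ∧
      ∀ i : Bool, ((Subgroup.closure (if i then {x} else X \ {x}) : Subgroup G) : Set G) ⊆
        M.closure (J i)) := by
  obtain ⟨I, hI⟩ := M.exists_isBasis (X \ {x}) (by rw [hE]; exact Set.subset_univ _)
  have h0 : X \ {x} ⊆ M.closure I := hI.subset_closure
  by_cases hxI : x ∈ M.closure I
  · left
    obtain ⟨B, hB, hB'⟩ := exists_base_subset_of_closure hE h4 X I (by
      intro y hy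
      by_cases hyx : y = x
      · rw [hyx]
        exact hxI
      · exact h0 ⟨hy, hyx⟩) hX
    exact ⟨B, hB, hB'.trans (Set.inter_subset_left.trans hI.subset)⟩
  · right
    have hxN : x ∉ rInf G := fun h => hxI (mem_loops hE h2 x h _)
    refine ⟨hxN, fun i => if i then {x} else I, ?_, ?_, ?_⟩
    · have hxI' : x ∉ I := fun h => hxI (M.subset_closure I hI.indep.subset_ground h)
      intro i j hij
      cases i <;> cases j <;> simp [Function.onFun] at hij ⊢
      · exact hxI'
      · exact hxI'
    · have h5 : (⋃ b : Bool, if b = true then ({x} : Set G) else I) = insert x I := by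
        ext g
        simp [Set.mem_iUnion, or_comm]
      rw [h5]
      rw [hI.indep.insert_indep_iff]
      left
      exact ⟨by rw [hE]; exact Set.mem_univ _, hxI⟩
    · intro i
      refine closure_le h4 _ _ ?_
      cases i
      · simpa using h0
      · simp only [if_true]
        exact Set.singleton_subset_iff.2 (mem_self hE x)

include hS

/-- a group generated by `rInf G` and `m` linked sets has rank at most `m`, with equality only if
`G / rInf G` is the free product of the images of the groups generated by the linked sets -/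
theorem exists_base_card_le' (m : ℕ) (X : Fin m → Set G)
    (hX : Subgroup.closure ((rInf G : Set G) ∪ ⋃ i, X i) = ⊤)
    (hl : ∀ i, ∀ a ∈ X i, ∀ b ∈ X i, a ∉ rInf G → b ∉ rInf G → Linked a b) :
    ∃ B, M.IsBase B ∧ B.ncard ≤ m ∧ (B.ncard = m →
      (∀ i, ∃ g ∈ X i, g ∉ rInf G) ∧ ∃ J : Fin m → Set G,
      Pairwise (Function.onFun Disjoint J) ∧ M.Indep (⋃ i, J i) ∧
      ∀ i, (Subgroup.closure (X i) : Set G) ⊆ M.closure (J i)) := by
  classical
  let a : Fin m → G := fun i => if h : ∃ a ∈ X i, a ∉ rInf G then h.choose else 1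
  have hXa : ∀ i, X i ⊆ M.closure {a i} := by
    intro i g hg
    by_cases hgr : g ∈ rInf G
    · exact mem_loops hE h2 g hgr _
    · have h6 : ∃ a ∈ X i, a ∉ rInf G := ⟨g, hg, hgr⟩
      have h7 : a i = h6.choose := dif_pos h6
      have h8 : Linked g (a i) := by
        rw [h7]
        exact hl i g hg _ h6.choose_spec.1 hgr h6.choose_spec.2
      rw [← closure_eq_of_linked hE h2 h4 hS g (a i) h8]
      exact mem_self hE g
  have hA : ∀ i, (Subgroup.closure (X i) : Set G) ⊆ M.closure {a i} := fun i =>
    closure_le h4 _ _ (hXa i)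
  have hY : ((rInf G : Set G) ∪ ⋃ i, X i) ⊆ M.closure (Set.range a) := by
    rintro g (hg | hg)
    · exact mem_loops hE h2 g hg _
    · obtain ⟨i, hi⟩ := Set.mem_iUnion.1 hg
      exact M.closure_subset_closure (Set.singleton_subset_iff.2 (Set.mem_range_self i)) (hXa i hi)
  obtain ⟨B, hB, hB'⟩ := exists_base_subset_of_closure hE h4 _ _ hY hX
  replace hB' : B ⊆ Set.range a := hB'.trans Set.inter_subset_left
  have hc : (Set.range a).ncard ≤ m := by
    rw [← Set.image_univ]
    refine (Set.ncard_image_le Set.finite_univ).trans ?_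
    rw [Set.ncard_univ, Nat.card_fin]
  refine ⟨B, hB, (Set.ncard_le_ncard hB' (Set.finite_range a)).trans hc, fun hm => ?_⟩
  have h7 : B = Set.range a := Set.eq_of_subset_of_ncard_le hB' (by rw [hm]; exact hc)
    (Set.finite_range a)
  have h8 : Function.Injective a := by
    have h9 : (a '' Set.univ).ncard = (Set.univ : Set (Fin m)).ncard := by
      rw [Set.image_univ, Set.ncard_univ, Nat.card_fin, ← h7, hm]
    exact Set.injOn_univ.1 (Set.injOn_of_ncard_image_eq h9)
  refine ⟨fun i => ?_, fun i => {a i}, ?_, ?_, hA⟩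
  · have h9 : a i ∉ rInf G := by
      rw [← h2]
      exact hB.indep.subset (by rw [h7]; exact Set.singleton_subset_iff.2 (Set.mem_range_self i))
    by_contra hcon
    apply h9
    rw [show a i = 1 from dif_neg hcon]
    exact one_mem _
  · intro i j hij
    simp only [Function.onFun, Set.disjoint_singleton_left, Set.mem_singleton_iff]
    exact fun h => hij (h8 h)
  · rw [Set.iUnion_singleton_eq_range, ← h7]
    exact hB.indep

end

end Pool.Agent.Helper70.FS
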