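import Pool.Agent.Helper70.FS.Cons
set_option autoImplicit false

/-!
Consequences of the Freiheitssatz for subgroups for groups which are not free products.
-/

open Pool.Agent.Helper45.FH

namespace Pool.Agent.Helper70.FS

/-- elements outside `rInf G` have infinite order modulo `rInf G` -/
theorem pow_notMem_rInf {G : Type} [Group G] {g : G} (hg : g ∉ rInf G) (n : ℕ) (hn : 0 < n) :
    g ^ n ∉ rInf G := by
  intro h
  apply hg
  have h1 : ∀ s, g ^ n ∈ (rds G s).1 := fun s => rInf_le G s h
  have h2 : ∀ s, g ∈ (rds G s).1 := by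
    intro s
    induction s with
    | zero => exact Subgroup.mem_top g
    | succ s ih =>
      have h3 := h1 (s + 1)
      rw [rds_succ, mem_nxt] at h3 ⊢
      obtain ⟨_, k, hk, h4⟩ := h3
      exact ⟨ih, n * k, Nat.mul_pos hn hk, by rwa [pow_mul]⟩
  exact Subgroup.mem_iInf.2 h2

/-- `G` is not the internal free product of two nontrivial subgroups one of which contains an element
of infinite order -/
def NoSplit (G : Type) [Group G] : Prop :=
  ∀ (ι : Type) (A : ι → Subgroup G),
    Function.Bijective (Monoid.CoprodI.lift fun i => (A i).subtype) →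
    ∀ i j, i ≠ j → ∀ a ∈ A i, (∀ n : ℕ, 0 < n → a ^ n ≠ 1) → A j = ⊥

section

variable {G : Type} [Group G] {M : Matroid G}
  (hE : M.E = Set.univ) (h2 : ∀ g, M.Indep {g} ↔ g ∉ rInf G)
  (h4 : ∀ S : Set G, ∃ H : Subgroup G, M.closure S = H)
  (hS : Skew M) (hG : NoSplit G)

include hG hS

theorem false_of_skew {ι : Type} (J : ι → Set G) (A : ι → Subgroup G)
    (hd : Pairwise (Function.onFun Disjoint J)) (hJ : M.Indep (⋃ i, J i))
    (hA : ∀ i, (A i : Set G) ⊆ M.closure (J i)) (hN : ∀ i, A i ⊓ rInf G = ⊥)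
    (hsup : ⨆ i, A i = ⊤) (i j : ι) (hij : i ≠ j) (a : G) (ha : a ∈ A i) (ha' : a ∉ rInf G)
    (hj : A j ≠ ⊥) : False := by
  refine hj (hG ι A ⟨lift_subtype_injective_of_skew hS J A hd hJ hA hN, ?_⟩ i j hij a ha ?_)
  · rw [← MonoidHom.range_eq_top, Monoid.CoprodI.range_eq_iSup]
    simp only [Subgroup.range_subtype]
    exact hsup
  · intro n hn h
    exact pow_notMem_rInf ha' n hn (by rw [h]; exact one_mem _)

include hE h2 h4

/-- a group which is not a free product and which is generated by `r ≥ 2` linked sets generating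
subgroups which meet `rInf G` trivially has rank less than `r` -/
theorem exists_base_card_lt (r : ℕ) (hr : 2 ≤ r) (X : Fin r → Set G)
    (hX : Subgroup.closure (⋃ i, X i) = ⊤)
    (hl : ∀ i, ∀ a ∈ X i, ∀ b ∈ X i, a ∉ rInf G → b ∉ rInf G → Linked a b)
    (hN : ∀ i, Subgroup.closure (X i) ⊓ rInf G = ⊥) :
    ∃ B, M.IsBase B ∧ B.ncard < r := by
  obtain ⟨B, hB, hc, heq⟩ := exists_base_card_le' hE h2 h4 hS r X (by
    rw [eq_top_iff, ← hX]
    exact Subgroup.closure_mono Set.subset_union_right) hl
  refine ⟨B, hB, lt_of_le_of_ne hc fun h => ?_⟩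
  obtain ⟨h5, J, hd, hJ, hA⟩ := heq h
  obtain ⟨a, ha, ha'⟩ := h5 ⟨0, by omega⟩
  obtain ⟨b, hb, hb'⟩ := h5 ⟨1, by omega⟩
  refine false_of_skew hS hG J (fun i => Subgroup.closure (X i)) hd hJ hA hN ?_ ⟨0, by omega⟩
    ⟨1, by omega⟩ (by simp) a (Subgroup.subset_closure ha) ha' ?_
  · rw [← Subgroup.closure_iUnion, hX]
  · intro h6
    apply hb'
    have h7 : b ∈ Subgroup.closure (X ⟨1, by omega⟩) := Subgroup.subset_closure hb
    rw [h6, Subgroup.mem_bot] at h7
    rw [h7]
    exact one_mem _

/-- any generator can be dropped -/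
theorem exists_base_subset_diff (X : Set G) (hX : Subgroup.closure X = ⊤) (x : G)
    (hN : Subgroup.closure (X \ {x}) ⊓ rInf G = ⊥) (hx : Subgroup.closure (X \ {x}) ≠ ⊥) :
    ∃ B, M.IsBase B ∧ B ⊆ X \ {x} := by
  rcases exists_base_or hE h2 h4 X hX x with h | ⟨hxN, J, hd, hJ, hA⟩
  · exact h
  · exfalso
    refine false_of_skew hS hG J
      (fun i => (Subgroup.closure (if i then {x} else X \ {x}) : Subgroup G)) hd hJ hA ?_ ?_
      true false (by simp) x (Subgroup.subset_closure (by simp)) hxN (by simpa using hx)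
    · intro i
      cases i
      · simpa using hN
      · simp only [if_true]
        rw [eq_bot_iff, ← Subgroup.zpowers_eq_closure]
        rintro g ⟨hg, hg'⟩
        obtain ⟨n, rfl⟩ := Subgroup.mem_zpowers_iff.1 hg
        rw [Subgroup.mem_bot]
        by_contra hne
        have hn : n ≠ 0 := by
          rintro rfl
          exact hne (zpow_zero x)
        refine pow_notMem_rInf hxN n.natAbs (Int.natAbs_pos.2 hn) ?_
        rcases Int.natAbs_eq n with h5 | h5
        · rw [h5, zpow_natCast] at hg'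
          exact hg'
        · rw [h5, zpow_neg, zpow_natCast] at hg'
          exact inv_mem_iff.1 hg'
    · rw [← Subgroup.closure_iUnion, eq_top_iff, ← hX]
      refine Subgroup.closure_mono ?_
      intro y hy
      by_cases hyx : y = x
      · exact Set.mem_iUnion.2 ⟨true, by simpa using hyx⟩
      · exact Set.mem_iUnion.2 ⟨false, by simpa using ⟨hy, hyx⟩⟩

end

end Pool.Agent.Helper70.FS
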