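import Pool.Agent.Helper70.FS.Full
import Pool.Agent.Helper70.FS.NoSplit
import Pool.Agent.Helper77.FP.Asph
import Pool.Agent.Helper77.FP.NotFree
set_option autoImplicit false

/-!
Definitions for the final statement, and groups with vanishing first cohomology.
-/

open Pool.Agent.Helper45.FH Pool.Agent.Helper35.SH Matrix

namespace Pool.Agent.Helper70.FS

/-- The homomorphism from the free product of the groups `A i` to `Q` given by the homomorphisms
`f i` is injective. -/
def InjOnProd {Q : Type} [Group Q] {ι : Type} {A : ι → Type} [∀ i, Group (A i)]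
    (f : ∀ i, A i →* Q) : Prop :=
  Function.Injective (Monoid.CoprodI.lift f)

/-- The subgroups `B i` of the group `Q` generate their free product: the homomorphism from the free
product of these subgroups to `Q` given by the inclusions is injective. -/
def FreeProd {Q : Type} [Group Q] {ι : Type} (B : ι → Subgroup Q) : Prop :=
  InjOnProd fun i => (B i).subtype

/-- The images of the subgroups `A i` in `G / rInf G` generate their free product. -/
def FreeMod {G : Type} [Group G] {ι : Type} (A : ι → Subgroup G) : Prop :=
  FreeProd fun i => (A i).map (QuotientGroup.mk' (rInf G))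

/-- A set is linked if all its elements outside `rInf G` are linked. -/
def IsLinked {G : Type} [Group G] (X : Set G) : Prop :=
  ∀ a ∈ X, ∀ b ∈ X, a ∉ rInf G → b ∉ rInf G → Linked a b

/-- The set `X` contains a base of the matroid `M`. -/
def HasBase {G : Type} (M : Matroid G) (X : Set G) : Prop :=
  ∃ B : Set G, M.IsBase B ∧ B ⊆ X

/-- `M` is a matroid on the group `G` which satisfies the Freiheitssatz for subgroups modulo
`rInf G`. -/
structure IsFreeMatroid {G : Type} [Group G] (M : Matroid G) : Prop where
  /-- the ground set is `G` -/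
  ground : M.E = Set.univ
  /-- the loops are the elements of `rInf G` -/
  loops : ∀ g, M.Indep {g} ↔ g ∉ rInf G
  /-- independent sets freely generate modulo `rInf G` -/
  free : ∀ J : Set G, M.Indep J → Function.Injective
    ((QuotientGroup.mk' (rInf G)).comp (FreeGroup.lift fun j : J => (j : G)))
  /-- subgroups in skew flats generate their free product modulo `rInf G` -/
  freeMod : ∀ (ι : Type) (J : ι → Set G) (A : ι → Subgroup G),
    Pairwise (Function.onFun Disjoint J) → M.Indep (⋃ i, J i) →
    (∀ i, (A i : Set G) ⊆ M.closure (J i)) → FreeMod A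
  /-- flats are subgroups, malnormal up to `rInf G` -/
  flats : ∀ S : Set G, ∃ K : Subgroup G, M.closure S = K ∧
    ∀ g ∈ K, g ∉ rInf G → ∀ h, h * g * h⁻¹ ∈ K → h ∈ K

theorem noSplit {R : Type} [CommRing R] [Nontrivial R] {G : Type} [Group G] {a b c : Type}
    [Fintype a] [Fintype b] [Fintype c] (w : G →* ℤˣ)
    {D₁ : Matrix b a (MonoidAlgebra R G)} {D₂ : Matrix c b (MonoidAlgebra R G)}
    (h : IsStart D₁ D₂)
    (hex : ∀ x : b → MonoidAlgebra R G, x ᵥ* dual w D₂ = 0 →
      ∃ y : a → MonoidAlgebra R G, y ᵥ* dual w D₁ = x) : NoSplit G := by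
  intro ι A hA i j hij g hg hg'
  by_contra hne
  obtain ⟨⟨k, hk⟩, hk0⟩ := Subgroup.ne_bot_iff_exists_ne_one.1 hne
  have hk' : k ≠ 1 := fun h1 => hk0 (Subtype.ext h1)
  refine Pool.Agent.Helper77.FP.not_bijective (R := R)
    (fun δ hδ => Pool.Agent.Helper77.FP.principal w h hex δ hδ) A i j hij g hg ?_ k hk hk' hA
  intro h1
  obtain ⟨n, hn, h2⟩ := isOfFinOrder_iff_pow_eq_one.1 h1
  exact hg' n hn h2

end Pool.Agent.Helper70.FS
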