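import Pool.Agent.Helper70.FS.Linked
import Pool.Agent.Helper45.FH.Thm
import Pool.Agent.Helper32.RF.Levels
set_option autoImplicit false

/-!
The structure theorem for the fundamental groups of compact four-manifolds.
-/

open Pool.Agent.Helper72.HG Pool.Agent.Helper35.SH MonoidAlgebra MulOpposite Filter
open Pool.Agent.Helper45.FH

namespace Pool.Agent.Helper70.FS

section Seq

variable {G : Type} [Group G] {L : ℕ → Type} [∀ s, DivisionRing (L s)]
  {ρ : ∀ s, G ⧸ (rds G (s + 1)).1 →* L s} {U : Ultrafilter ℕ}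

theorem structure_full (hU : (U : Filter ℕ) ≤ atTop) (hρ : ∀ s, LinearIndependent ℤ (ρ s))
    {d : ℕ} (x : Fin d → G) (hx : Subgroup.closure (Set.range x) = ⊤) :
    ∃ M : Matroid G, M.E = Set.univ ∧ (∀ g, M.Indep {g} ↔ g ∉ rInf G) ∧
      (∀ J : Set G, M.Indep J →
        Function.Injective ((QuotientGroup.mk' (rInf G)).comp (FreeGroup.lift fun j : J => (j : G))))
      ∧ (∀ S : Set G, ∃ H : Subgroup G, M.closure S = H ∧
        ∀ g ∈ H, g ∉ rInf G → ∀ h, h * g * h⁻¹ ∈ H → h ∈ H) ∧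
      Skew M ∧
      ∀ B : Set G, M.IsBase B → B.Finite ∧
        ∀ᶠ s in (U : Filter ℕ), Module.finrank (L s)ᵐᵒᵖ (Z1 (sg ρ s)) ≤ B.ncard := by
  classical
  obtain ⟨M, hE, hfin, hM⟩ := exists_umat (L := L) (V := fun s => Z1 (sg ρ s) → L s)
    (fun s => evg (sg ρ s)) U
  have hrange : ∃ I : Finset G, M.Indep (I : Set G) ∧ M.closure (I : Set G) = Set.univ := by
    obtain ⟨I, hI⟩ := M.exists_isBasis (Set.range x) (by rw [hE]; exact Set.subset_univ _)
    have hIf : I.Finite := (Set.finite_range x).subset hI.subset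
    obtain ⟨H, hH, _⟩ := closure_finset hU hρ hE hM hIf.toFinset
      (by rw [hIf.coe_toFinset]; exact hI.indep)
    refine ⟨hIf.toFinset, by rw [hIf.coe_toFinset]; exact hI.indep, ?_⟩
    rw [hH]
    have h1 : Set.range x ⊆ H := by
      rw [← hH, hIf.coe_toFinset]
      exact hI.subset_closure
    have h2 : H = ⊤ := by
      rw [eq_top_iff, ← hx, Subgroup.closure_le]
      exact h1
    rw [h2, Subgroup.coe_top]
  have hrf : M.RankFinite := by
    obtain ⟨I, hI, hI'⟩ := hrange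
    have h1 : M.IsBase (I : Set G) := by
      rw [Matroid.isBase_iff_indep_closure_eq]
      exact ⟨hI, by rw [hI', hE]⟩
    exact h1.rankFinite_of_finite I.finite_toSet
  refine ⟨M, hE, ?_, ?_, ?_, ?_, ?_⟩
  · intro g
    have h1 := hM {g}
    rw [Finset.coe_singleton] at h1
    rw [h1]
    constructor
    · intro h2 h3
      obtain ⟨s, hs⟩ := h2.exists
      rw [linearIndepOn_singleton_iff] at hs
      exact hs (evg_eq_zero (ρ s) (hρ s) g h3)
    · intro hg
      refine (eventually_not_mem hU g hg).mono fun s hs => ?_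
      rw [linearIndepOn_singleton_iff]
      exact evg_ne_zero (ρ s) (hρ s) g hs
  · intro J' hJ'
    have hJf : J'.Finite := hJ'.finite
    obtain ⟨J, rfl⟩ := hJf.exists_finset_coe
    have h1 : krn (FreeGroup.lift fun j : (J : Set G) => (j : G)) = ⊥ := by
      by_contra hk
      obtain ⟨w, hw, s₀, hs₀⟩ := exists_fox_ne_zero
        (FreeGroup.lift fun j : (J : Set G) => (j : G)) hk
      have h2 : ∀ᶠ s in (U : Filter ℕ), s₀ ≤ s := (eventually_ge_atTop s₀).filter_mono hU
      obtain ⟨s, h3, h4⟩ := (h2.and ((hM J).1 hJ')).exists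
      exact krn_of_indep' (ρ s) (hρ s) J w hw (hs₀ (s + 1) (by omega)) h4
    exact (MonoidHom.ker_eq_bot_iff _).1 h1
  · intro S
    obtain ⟨I, hI⟩ := M.exists_isBasis S (by rw [hE]; exact Set.subset_univ _)
    have hIf : I.Finite := hI.indep.finite
    obtain ⟨H, hH, hH'⟩ := closure_finset hU hρ hE hM hIf.toFinset
      (by rw [hIf.coe_toFinset]; exact hI.indep)
    refine ⟨H, ?_, hH'⟩
    rw [← hH, hIf.coe_toFinset]
    exact hI.closure_eq_closure.symm
  · intro ι J hd hJ l hl hc hne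
    exact word_not_mem hU hρ hE hM J hd hJ hJ.finite l.length l rfl hl hc hne
  · intro B' hB'
    have hBf : B'.Finite := hB'.finite
    refine ⟨hBf, ?_⟩
    obtain ⟨B, rfl⟩ := hBf.exists_finset_coe
    have h1 : ∀ i, ∀ᶠ s in (U : Filter ℕ),
        evg (sg ρ s) (x i) ∈ Submodule.span (L s) (evg (sg ρ s) '' (B : Set G)) := by
      intro i
      rw [← mem_closure_iff_eventually (v := fun s => evg (sg ρ s)) hE hM B hB'.indep,
        hB'.closure_eq, hE]
      exact Set.mem_univ _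
    refine (eventually_all.2 h1).mono fun s hs => ?_
    rw [Set.ncard_coe_finset]
    apply finrank_le_card_of_span
    intro g
    have h2 : (⊤ : Subgroup G) ≤
        flat (sg ρ s) (Submodule.span (L s) (evg (sg ρ s) '' (B : Set G))) := by
      rw [← hx, Subgroup.closure_le]
      rintro _ ⟨i, rfl⟩
      exact hs i
    exact h2 (Subgroup.mem_top g)

end Seq

/-- **The matroid of the fundamental group of a compact four-manifold.** -/
theorem main {R : Type} [CommRing R] [Algebra R ℚ] {G : Type} [Group G] [Group.FG G]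
    (w : G →* ℤˣ) (hw : ∀ (g : G) (k : ℕ), 0 < k → g ^ k ∈ commutator G → w g = 1)
    {n₀ n₁ n₂ n₃ n₄ p : ℕ} {H : Fin p → Subgroup G}
    {D₁ : Matrix (Fin n₁) (Fin n₀) (MonoidAlgebra R G)}
    {D₂ : Matrix (Fin n₂) (Fin n₁) (MonoidAlgebra R G)}
    {D₃ : Matrix (Fin n₃) (Fin n₂) (MonoidAlgebra R G)}
    {D₄ : Matrix (Fin n₄) (Fin n₃) (MonoidAlgebra R G)}
    {E : Matrix (Fin n₃) (Fin p) (MonoidAlgebra R G)}
    (h32 : D₃ * D₂ = 0) (hstart : IsStart D₁ D₂)
    (hdual : Pool.Agent.Helper32.RF.IsRelStart H (dual w D₄) E (dual w D₃)) :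
    ∃ M : Matroid G, M.E = Set.univ ∧ (∀ g, M.Indep {g} ↔ g ∉ rInf G) ∧
      (∀ J : Set G, M.Indep J →
        Function.Injective ((QuotientGroup.mk' (rInf G)).comp (FreeGroup.lift fun j : J => (j : G))))
      ∧ (∀ S : Set G, ∃ H : Subgroup G, M.closure S = H ∧
        ∀ g ∈ H, g ∉ rInf G → ∀ h, h * g * h⁻¹ ∈ H → h ∈ H) ∧
      Skew M ∧
      ∀ B : Set G, M.IsBase B → B.Finite ∧
        2 + (n₁ + n₃) ≤ 2 * B.ncard + (n₀ + n₂ + n₄) + {i | H i ≤ rInf G}.ncard := by
  classical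
  obtain ⟨S, hS⟩ : ∃ S : Finset G, Subgroup.closure (S : Set G) = ⊤ :=
    (Group.FG.out : (⊤ : Subgroup G).FG)
  obtain ⟨d, x, hx⟩ : ∃ (d : ℕ) (x : Fin d → G), Subgroup.closure (Set.range x) = ⊤ :=
    ⟨S.card, fun i => ((S.equivFin.symm i : S) : G), by
      rw [← hS]
      congr 1
      ext g
      simp only [Set.mem_range, Finset.mem_coe]
      constructor
      · rintro ⟨i, rfl⟩
        exact (S.equivFin.symm i).2
      · intro hg
        exact ⟨S.equivFin ⟨g, hg⟩, by simp⟩⟩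
  let T : Finset (Fin p) := Finset.univ.filter fun i => H i ≤ rInf G
  have hT : T.card = {i | H i ≤ rInf G}.ncard := by
    rw [← Set.ncard_coe_finset]
    congr 1
    ext i
    simp [T]
  obtain ⟨L, hL, ρ, hρ, hev⟩ := Pool.Agent.Helper32.RF.exists_levels w hw H hstart hdual h32 T
    (fun i hi h => hi (by simp [T, h]))
  have hU : ((hyperfilter ℕ : Ultrafilter ℕ) : Filter ℕ) ≤ atTop := Nat.hyperfilter_le_atTop
  obtain ⟨M, hM1, hM2, hM3, hM4, hM5, hM6⟩ := structure_full hU hρ x hx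
  refine ⟨M, hM1, hM2, hM3, hM4, hM5, fun B hB => ?_⟩
  obtain ⟨hBf, hB'⟩ := hM6 B hB
  refine ⟨hBf, ?_⟩
  obtain ⟨s, hs1, hs2⟩ := (hev.and hB').exists
  simp only [Fintype.card_fin, hT] at hs1
  omega

end Pool.Agent.Helper70.FS
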