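import Pool.Agent.Helper70.FS.Struct
import Pool.Agent.Helper45.FH.Cons
set_option autoImplicit false

/-!
Linked elements, and the rank of groups generated by linked sets.
-/

open Pool.Agent.Helper45.FH

namespace Pool.Agent.Helper70.FS

/-- `Linked` is the smallest equivalence relation such that `u` is linked to `v` if some product
`a₁ b₁ a₂ b₂ ⋯ aₖ bₖ`, `k > 0`, lies in `rInf G`, where no `aᵢ` and no `bᵢ` lies in `rInf G` and all
`aᵢ` are linked to `u` and all `bᵢ` are linked to `v`, and such that `u` is linked to a product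
`v v'` outside `rInf G` if it is linked to `v` and to `v'`. -/
inductive Linked {G : Type} [Group G] : G → G → Prop
  | rel {u v : G} (l : List (G × G)) : l ≠ [] → (∀ p ∈ l, p.1 ∉ rInf G ∧ p.2 ∉ rInf G) →
      (∀ p ∈ l, Linked u p.1) → (∀ p ∈ l, Linked v p.2) →
      (l.map fun p => p.1 * p.2).prod ∈ rInf G → Linked u v
  | mul {u v v' : G} : Linked u v → Linked u v' → v * v' ∉ rInf G → Linked u (v * v')
  | refl (u : G) : Linked u u
  | symm {u v : G} : Linked u v → Linked v u
  | trans {u v v' : G} : Linked u v → Linked v v' → Linked u v'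

section

variable {G : Type} [Group G] {M : Matroid G} (hE : M.E = Set.univ)
  (h2 : ∀ g, M.Indep {g} ↔ g ∉ rInf G)
  (h4 : ∀ S : Set G, ∃ H : Subgroup G, M.closure S = H)
  (hS : Skew M)

/-- the alternating list of a list of pairs -/
def alt {G : Type} : List (G × G) → List (Bool × G)
  | [] => []
  | p :: l => (true, p.1) :: (false, p.2) :: alt l

lemma alt_prod (l : List (G × G)) :
    ((alt l).map Prod.snd).prod = (l.map fun p => p.1 * p.2).prod := by
  induction l with
  | nil => rfl
  | cons p l ih => simp [alt, ih, mul_assoc]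

lemma mem_alt {G : Type} (l : List (G × G)) (x : Bool × G) (hx : x ∈ alt l) :
    ∃ p ∈ l, x = (true, p.1) ∨ x = (false, p.2) := by
  induction l with
  | nil => simp [alt] at hx
  | cons p l ih =>
    rw [alt, List.mem_cons, List.mem_cons] at hx
    rcases hx with hx | hx | hx
    · exact ⟨p, List.mem_cons_self, Or.inl hx⟩
    · exact ⟨p, List.mem_cons_self, Or.inr hx⟩
    · obtain ⟨q, hq, hq'⟩ := ih hx
      exact ⟨q, List.mem_cons_of_mem _ hq, hq'⟩

lemma alt_chain {G : Type} (l : List (G × G)) :
    (alt l).IsChain (fun a b => a.1 ≠ b.1) := by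
  induction l with
  | nil => simp [alt]
  | cons p l ih =>
    cases l with
    | nil => simp [alt]
    | cons q l =>
      simp only [alt, List.isChain_cons_cons] at ih ⊢
      exact ⟨by simp, by simp, ih⟩

include hE h2

lemma mem_loops (g : G) (hg : g ∈ rInf G) (S : Set G) : g ∈ M.closure S := by
  have h6 : M.IsLoop g := by
    rw [← Matroid.not_isNonloop_iff (by rw [hE]; exact Set.mem_univ _),
      ← Matroid.indep_singleton, h2]
    exact fun h => h hg
  exact h6.mem_closure _

omit hE in
lemma nonloop (g : G) (hg : g ∉ rInf G) : M.IsNonloop g :=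
  Matroid.indep_singleton.1 ((h2 g).2 hg)

omit h2 in
lemma mem_self (g : G) : g ∈ M.closure {g} :=
  M.mem_closure_self g (by rw [hE]; exact Set.mem_univ _)

include h4 hS

theorem closure_eq_of_linked (a b : G) (h : Linked a b) : M.closure {a} = M.closure {b} := by
  have key : ∀ u v : G, v ∉ rInf G → v ∈ M.closure {u} → M.closure {u} = M.closure {v} := by
    intro u v hv huv
    exact ((nonloop h2 v hv).closure_eq_of_mem_closure huv).symm
  induction h with
  | @rel u v l hne hl _ _ hprod ih1 ih2 =>
    obtain ⟨p, l', rfl⟩ := List.exists_cons_of_ne_nil hne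
    have hp := hl p List.mem_cons_self
    have hu := ih1 p List.mem_cons_self
    have hv := ih2 p List.mem_cons_self
    by_contra hcon
    rw [hu, hv] at hcon
    have hn1 := nonloop h2 p.1 hp.1
    have hn2 := nonloop h2 p.2 hp.2
    rw [hn1.closure_eq_closure_iff_eq_or_dep hn2, not_or] at hcon
    have hind : M.Indep {p.1, p.2} := not_not.1 hcon.2
    refine hS Bool (fun b => if b then {p.1} else {p.2}) ?_ ?_ (alt (p :: l')) ?_ (alt_chain _)
      (by simp [alt]) ?_
    · intro i j hij
      cases i <;> cases j <;> simp [Function.onFun] at hij ⊢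
      · exact fun h => hcon.1 h.symm
      · exact hcon.1
    · have h5 : (⋃ b : Bool, if b = true then ({p.1} : Set G) else {p.2}) = {p.1, p.2} := by
        ext g
        simp [Set.mem_iUnion, or_comm]
      rw [h5]
      exact hind
    · intro x hx
      obtain ⟨q, hq, hq' | hq'⟩ := mem_alt _ x hx
      · subst hq'
        refine ⟨?_, (hl q hq).1⟩
        simp only [if_true]
        rw [← hu, ih1 q hq]
        exact mem_self hE _
      · subst hq'
        refine ⟨?_, (hl q hq).2⟩
        simp only [Bool.false_eq_true, if_false]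
        rw [← hv, ih2 q hq]
        exact mem_self hE _
    · rw [alt_prod]
      exact hprod
  | @mul u v v' _ _ hvv ih1 ih2 =>
    obtain ⟨H, hH⟩ := h4 {u}
    apply key u _ hvv
    rw [hH]
    refine H.mul_mem ?_ ?_
    · show v ∈ (H : Set G)
      rw [← hH, ih1]
      exact mem_self hE v
    · show v' ∈ (H : Set G)
      rw [← hH, ih2]
      exact mem_self hE v'
  | refl u => rfl
  | symm _ ih => exact ih.symm
  | trans _ _ ih1 ih2 => exact ih1.trans ih2

/-- a group generated by `rInf G` and `m` linked sets has rank at most `m`, with equality only if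
`G / rInf G` is the free product of the images of the groups generated by the linked sets -/
theorem exists_base_card_le (m : ℕ) (X : Fin m → Set G)
    (hX : Subgroup.closure ((rInf G : Set G) ∪ ⋃ i, X i) = ⊤)
    (hl : ∀ i, ∀ a ∈ X i, ∀ b ∈ X i, a ∉ rInf G → b ∉ rInf G → Linked a b) :
    ∃ B, M.IsBase B ∧ B.ncard ≤ m ∧ (B.ncard = m →
      Function.Injective (Monoid.CoprodI.lift fun i =>
        ((Subgroup.closure (X i)).map (QuotientGroup.mk' (rInf G))).subtype)) := by
  classical
  let a : Fin m → G := fun i => if h : ∃ a ∈ X i, a ∉ rInf G then h.choose else 1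
  have hXa : ∀ i, X i ⊆ M.closure {a i} := by
    intro i g hg
    by_cases hgr : g ∈ rInf G
    · exact mem_loops hE h2 g hgr _
    · have h6 : ∃ a ∈ X i, a ∉ rInf G := ⟨g, hg, hgr⟩
      have h7 : a i = h6.choose := dif_pos h6
      have h8 : Linked g (a i) := by
        rw [h7]
        exact hl i g hg _ h6.choose_spec.1 hgr h6.choose_spec.2
      rw [← closure_eq_of_linked hE h2 h4 hS g (a i) h8]
      exact mem_self hE g
  have hA : ∀ i, (Subgroup.closure (X i) : Set G) ⊆ M.closure {a i} := by
    intro i
    obtain ⟨H, hH⟩ := h4 {a i}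
    rw [hH]
    have h5 : Subgroup.closure (X i) ≤ H := by
      rw [Subgroup.closure_le, ← hH]
      exact hXa i
    exact h5
  have hY : ((rInf G : Set G) ∪ ⋃ i, X i) ⊆ M.closure (Set.range a) := by
    rintro g (hg | hg)
    · exact mem_loops hE h2 g hg _
    · obtain ⟨i, hi⟩ := Set.mem_iUnion.1 hg
      exact M.closure_subset_closure (Set.singleton_subset_iff.2 (Set.mem_range_self i)) (hXa i hi)
  obtain ⟨H, hH⟩ := h4 (Set.range a)
  have h5 : H = ⊤ := by
    rw [eq_top_iff, ← hX, Subgroup.closure_le, ← hH]
    exact hY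
  have h6 : M.Spanning (Set.range a) := by
    rw [Matroid.spanning_iff_closure_eq (by rw [hE]; exact Set.subset_univ _), hH, h5, hE,
      Subgroup.coe_top]
  obtain ⟨B, hB, hB'⟩ := h6.exists_isBase_subset
  have hc : (Set.range a).ncard ≤ m := by
    rw [← Set.image_univ]
    refine (Set.ncard_image_le Set.finite_univ).trans ?_
    rw [Set.ncard_univ, Nat.card_fin]
  refine ⟨B, hB, (Set.ncard_le_ncard hB' (Set.finite_range a)).trans hc, fun hm => ?_⟩
  have h7 : B = Set.range a := Set.eq_of_subset_of_ncard_le hB' (by rw [hm]; exact hc)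
    (Set.finite_range a)
  have h8 : Function.Injective a := by
    have h9 : (a '' Set.univ).ncard = (Set.univ : Set (Fin m)).ncard := by
      rw [Set.image_univ, Set.ncard_univ, Nat.card_fin, ← h7, hm]
    exact Set.injOn_univ.1 (Set.injOn_of_ncard_image_eq h9)
  apply lift_injective (rInf G) (fun i => Subgroup.closure (X i))
  intro l hl hch hne
  refine hS (Fin m) (fun i => {a i}) ?_ ?_ l ?_ hch hne
  · intro i j hij
    simp only [Function.onFun, Set.disjoint_singleton_left, Set.mem_singleton_iff]
    exact fun h => hij (h8 h)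
  · rw [Set.iUnion_singleton_eq_range, ← h7]
    exact hB.indep
  · intro p hp
    exact ⟨hA p.1 (hl p hp).1, (hl p hp).2⟩

end

end Pool.Agent.Helper70.FS
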