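import Pool.Agent.Helper45.FH.Thm
set_option autoImplicit false

/-!
The part of a word with letters in one member of a family of subgroups.
-/

open Pool.Agent.Helper72.HG MonoidAlgebra MulOpposite Pool.Agent.Helper45.FH

namespace Pool.Agent.Helper70.FS

section Word

variable {G Γ ι : Type} [Group G] [Group Γ] [DecidableEq ι] (π : G →* Γ) (i : ι)

/-- the contribution of the letters of index `i` to the derivation `g ↦ g - 1` of a word -/
noncomputable def tw : List (ι × G) → MonoidAlgebra ℤ Γ
  | [] => 0
  | p :: l => (if p.1 = i then single (π p.2) 1 - 1 else 0) + single (π p.2) 1 * tw l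

lemma tw_coeff (l : List (ι × G)) : ∀ q : Γ,
    (∀ r, r <+: l → q * π (r.map Prod.snd).prod ≠ 1) → (single q 1 * tw π i l).coeff 1 = 0 := by
  induction l with
  | nil =>
    intro q _
    simp [tw]
  | cons p l ih =>
    intro q hq
    have h1 : q ≠ 1 := by
      have := hq [] List.nil_prefix
      simpa using this
    have h2 : q * π p.2 ≠ 1 := by
      have := hq [p] (by simp)
      simpa using this
    have h3 : (single (q * π p.2) 1 * tw π i l).coeff 1 = 0 := by
      apply ih
      intro r hr
      have := hq (p :: r) (by simpa using hr)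
      simpa [mul_assoc] using this
    have h4 : (single q 1 : MonoidAlgebra ℤ Γ) * tw π i (p :: l) =
        (if p.1 = i then single (q * π p.2) 1 - single q 1 else 0) +
          single (q * π p.2) 1 * tw π i l := by
      rw [tw, mul_add, ← mul_assoc, single_mul_single, mul_one]
      congr 1
      split_ifs
      · rw [mul_sub, single_mul_single, mul_one, mul_one]
      · rw [mul_zero]
    rw [h4]
    split_ifs
    · simp only [coeff_add, coeff_sub, Finsupp.add_apply, Finsupp.sub_apply, h3, coeff_single]
      rw [Finsupp.single_eq_of_ne h2.symm, Finsupp.single_eq_of_ne h1.symm]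
      simp
    · simp only [coeff_add, Finsupp.add_apply, h3]
      simp

lemma tw_ne_zero (p : ι × G) (l : List (ι × G)) (hp : p.1 = i)
    (h : ∀ r, r <+: l → π p.2 * π (r.map Prod.snd).prod ≠ 1) : tw π i (p :: l) ≠ 0 := by
  intro h0
  have h1 : (tw π i (p :: l)).coeff 1 = -1 := by
    have h2 := tw_coeff π i l (π p.2) h
    have h3 : π p.2 ≠ 1 := by
      have := h [] List.nil_prefix
      simpa using this
    rw [tw, if_pos hp]
    simp only [coeff_add, coeff_sub, Finsupp.add_apply, Finsupp.sub_apply, h2, coeff_single, one_def]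
    rw [Finsupp.single_eq_of_ne h3.symm, Finsupp.single_eq_same]
    simp
  rw [h0] at h1
  simp at h1

end Word

section Level

variable {G ι : Type} [Group G] [DecidableEq ι] {L : Type} [DivisionRing L] (σ : G →* L) (i : ι)

/-- the part of the evaluation of a word given by the letters of index `i` -/
def pw : List (ι × G) → (Z1 σ → L)
  | [] => 0
  | p :: l => (if p.1 = i then evg σ p.2 else 0) + σ p.2 • pw l

/-- the part of the evaluation of a word given by the letters of index different from `i` -/
def qw : List (ι × G) → (Z1 σ → L)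
  | [] => 0
  | p :: l => (if p.1 = i then 0 else evg σ p.2) + σ p.2 • qw l

lemma evg_prod (l : List (ι × G)) : evg σ (l.map Prod.snd).prod = pw σ i l + qw σ i l := by
  induction l with
  | nil => simp [pw, qw, evg_one]
  | cons p l ih =>
    rw [List.map_cons, List.prod_cons, evg_mul, ih, pw, qw, smul_add]
    split_ifs
    · abel
    · abel

lemma pw_mem (W : Submodule L (Z1 σ → L)) (l : List (ι × G))
    (h : ∀ p ∈ l, p.1 = i → evg σ p.2 ∈ W) : pw σ i l ∈ W := by
  induction l with
  | nil => exact W.zero_mem
  | cons p l ih =>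
    rw [pw]
    refine W.add_mem ?_ (W.smul_mem _ (ih fun q hq => h q (List.mem_cons_of_mem _ hq)))
    split_ifs with hp
    · exact h p List.mem_cons_self hp
    · exact W.zero_mem

lemma qw_mem (W : Submodule L (Z1 σ → L)) (l : List (ι × G))
    (h : ∀ p ∈ l, p.1 ≠ i → evg σ p.2 ∈ W) : qw σ i l ∈ W := by
  induction l with
  | nil => exact W.zero_mem
  | cons p l ih =>
    rw [qw]
    refine W.add_mem ?_ (W.smul_mem _ (ih fun q hq => h q (List.mem_cons_of_mem _ hq)))
    split_ifs with hp
    · exact W.zero_mem
    · exact h p List.mem_cons_self hp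

/-- the principal crossed homomorphism -/
def prin : Z1 σ := ⟨fun g => σ g - 1, by
  intro g h
  simp only [map_mul, mul_sub, mul_one]
  abel⟩

lemma pw_prin {N : Subgroup G} [N.Normal] (ρ : G ⧸ N →* L) (l : List (ι × G)) :
    pw (ρ.comp (QuotientGroup.mk' N)) i l (prin _) = ext ρ (tw (QuotientGroup.mk' N) i l) := by
  induction l with
  | nil => simp [pw, tw]
  | cons p l ih =>
    rw [pw, tw, map_add, map_mul, ← ih, ext_single, Pi.add_apply, Pi.smul_apply, smul_eq_mul]
    congr 1
    split_ifs
    · rw [map_sub, ext_single, map_one]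
      rfl
    · rw [map_zero, Pi.zero_apply]

/-- if the evaluations of the letters of index `i` and of the other letters lie in disjoint
subspaces, and the word is trivial, then the contribution of the letters of index `i` vanishes -/
theorem tw_eq_zero {N : Subgroup G} [N.Normal] (ρ : G ⧸ N →* L) (hρ : LinearIndependent ℤ ρ)
    (W W' : Submodule L (Z1 (ρ.comp (QuotientGroup.mk' N)) → L)) (hW : Disjoint W W')
    (l : List (ι × G))
    (h : ∀ p ∈ l, p.1 = i → evg (ρ.comp (QuotientGroup.mk' N)) p.2 ∈ W)
    (h' : ∀ p ∈ l, p.1 ≠ i → evg (ρ.comp (QuotientGroup.mk' N)) p.2 ∈ W')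
    (h0 : evg (ρ.comp (QuotientGroup.mk' N)) (l.map Prod.snd).prod = 0) :
    tw (QuotientGroup.mk' N) i l = 0 := by
  apply ext_injective ρ hρ
  rw [← pw_prin]
  have h1 : pw (ρ.comp (QuotientGroup.mk' N)) i l = 0 := by
    rw [evg_prod _ i] at h0
    have h2 := pw_mem _ i W l h
    have h3 := qw_mem _ i W' l h'
    have h4 : pw (ρ.comp (QuotientGroup.mk' N)) i l = -qw (ρ.comp (QuotientGroup.mk' N)) i l :=
      eq_neg_of_add_eq_zero_left h0
    exact (Submodule.disjoint_def.1 hW) _ h2 (h4 ▸ W'.neg_mem h3)
  rw [h1, Pi.zero_apply]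

end Level

end Pool.Agent.Helper70.FS
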