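import Pool.Agent.Helper70.FS.Part
import Mathlib.GroupTheory.CoprodI
set_option autoImplicit false

/-!
Skew families of subgroups generate their free product modulo the intersection of the rational
derived series.
-/

open Pool.Agent.Helper72.HG MonoidAlgebra MulOpposite Filter Pool.Agent.Helper45.FH

namespace Pool.Agent.Helper70.FS

section Seq

variable {G : Type} [Group G] {L : ℕ → Type} [∀ s, DivisionRing (L s)]
  {ρ : ∀ s, G ⧸ (rds G (s + 1)).1 →* L s} {U : Ultrafilter ℕ} {M : Matroid G}

/-- **Alternating words in a skew family of flats.** -/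
theorem word_not_mem (hU : (U : Filter ℕ) ≤ atTop) (hρ : ∀ s, LinearIndependent ℤ (ρ s))
    (hE : M.E = Set.univ)
    (hM : ∀ J : Finset G, M.Indep (J : Set G) ↔
      ∀ᶠ s in (U : Filter ℕ), LinearIndepOn (L s) (evg (sg ρ s)) (J : Set G))
    {ι : Type} (J : ι → Set G) (hd : Pairwise (Function.onFun Disjoint J))
    (hJ : M.Indep (⋃ i, J i)) (hf : (⋃ i, J i).Finite) :
    ∀ (n : ℕ) (l : List (ι × G)), l.length = n →
      (∀ p ∈ l, p.2 ∈ M.closure (J p.1) ∧ p.2 ∉ rInf G) →
      l.IsChain (fun a b => a.1 ≠ b.1) → l ≠ [] → (l.map Prod.snd).prod ∉ rInf G := by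
  classical
  intro n
  induction n using Nat.strong_induction_on with
  | _ n ih =>
    intro l hn hl hc hne
    match l, hne with
    | [p], _ => simpa using (hl p (by simp)).2
    | p₁ :: p₂ :: l', _ =>
      intro hprod
      set i := p₂.1 with hi
      -- nonempty prefixes of the tail are not in `rInf G`
      have hpre : ∀ r, r <+: (p₂ :: l') → r ≠ [] → (r.map Prod.snd).prod ∉ rInf G := by
        intro r hr hr0
        have h1 : r.length ≤ (p₂ :: l').length := hr.length_le
        refine ih r.length (by rw [← hn]; simp only [List.length_cons] at h1 ⊢; omega) r rfl ?_ ?_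
          hr0
        · intro p hp
          exact hl p (List.mem_cons_of_mem _ (hr.subset hp))
        · have h2 : (p₂ :: l').IsChain (fun a b : ι × G => a.1 ≠ b.1) := hc.tail
          obtain ⟨t, ht⟩ := hr
          rw [← ht] at h2
          exact h2.left_of_append
      have hev1 : ∀ᶠ s in (U : Filter ℕ), ∀ r ∈ (p₂ :: l').inits, r ≠ [] →
          (r.map Prod.snd).prod ∉ (rds G (s + 1)).1 := by
        have h1 : ∀ r ∈ {r | r ∈ (p₂ :: l').inits}, ∀ᶠ s in (U : Filter ℕ), r ≠ [] →
            (r.map Prod.snd).prod ∉ (rds G (s + 1)).1 := by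
          intro r hr
          by_cases h0 : r = []
          · exact Eventually.of_forall fun s h => absurd h0 h
          · exact (eventually_not_mem hU _ (hpre r (List.mem_inits _ _ |>.1 hr) h0)).mono
              fun s hs _ => hs
        exact (eventually_all_finite (List.finite_toSet _)).2 h1
      -- finite bases
      have hfi : (J i).Finite := hf.subset (Set.subset_iUnion J i)
      have hfo : (⋃ j ∈ {j | j ≠ i}, J j).Finite := hf.subset (by
        intro g hg
        simp only [Set.mem_iUnion] at hg ⊢
        obtain ⟨j, _, hg⟩ := hg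
        exact ⟨j, hg⟩)
      obtain ⟨A, hA⟩ := hfi.exists_finset_coe
      obtain ⟨B, hB⟩ := hfo.exists_finset_coe
      have hAB : Disjoint (A : Set G) (B : Set G) := by
        rw [hA, hB, Set.disjoint_iUnion₂_right]
        intro j hj
        exact hd (Ne.symm hj)
      have hsub : ((A ∪ B : Finset G) : Set G) ⊆ ⋃ i, J i := by
        rw [Finset.coe_union, hA, hB]
        refine Set.union_subset (Set.subset_iUnion J i) ?_
        intro g hg
        simp only [Set.mem_iUnion] at hg ⊢
        obtain ⟨j, _, hg⟩ := hg
        exact ⟨j, hg⟩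
      have hindAB : M.Indep ((A ∪ B : Finset G) : Set G) := hJ.subset hsub
      have hindA : M.Indep (A : Set G) := hindAB.subset (by
        rw [Finset.coe_union]; exact Set.subset_union_left)
      have hindB : M.Indep (B : Set G) := hindAB.subset (by
        rw [Finset.coe_union]; exact Set.subset_union_right)
      have hev2 := (hM (A ∪ B)).1 hindAB
      have hev3 : ∀ᶠ s in (U : Filter ℕ), ∀ p ∈ (p₁ :: p₂ :: l'), p.1 = i →
          evg (sg ρ s) p.2 ∈ Submodule.span (L s) (evg (sg ρ s) '' (A : Set G)) := by
        have h1 : ∀ p ∈ {p | p ∈ (p₁ :: p₂ :: l')}, ∀ᶠ s in (U : Filter ℕ), p.1 = i →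
            evg (sg ρ s) p.2 ∈ Submodule.span (L s) (evg (sg ρ s) '' (A : Set G)) := by
          intro p hp
          by_cases h0 : p.1 = i
          · have h2 := (hl p hp).1
            rw [h0, ← hA, mem_closure_iff_eventually (v := fun s => evg (sg ρ s)) hE hM A hindA] at h2
            exact h2.mono fun s hs _ => hs
          · exact Eventually.of_forall fun s h => absurd h h0
        exact (eventually_all_finite (List.finite_toSet _)).2 h1
      have hev4 : ∀ᶠ s in (U : Filter ℕ), ∀ p ∈ (p₁ :: p₂ :: l'), p.1 ≠ i →
          evg (sg ρ s) p.2 ∈ Submodule.span (L s) (evg (sg ρ s) '' (B : Set G)) := by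
        have h1 : ∀ p ∈ {p | p ∈ (p₁ :: p₂ :: l')}, ∀ᶠ s in (U : Filter ℕ), p.1 ≠ i →
            evg (sg ρ s) p.2 ∈ Submodule.span (L s) (evg (sg ρ s) '' (B : Set G)) := by
          intro p hp
          by_cases h0 : p.1 = i
          · exact Eventually.of_forall fun s h => absurd h0 h
          · have h2 := (hl p hp).1
            have h3 : p.2 ∈ M.closure (B : Set G) := by
              refine M.closure_subset_closure ?_ h2
              rw [hB]
              intro g hg
              simp only [Set.mem_iUnion]
              exact ⟨p.1, h0, hg⟩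
            rw [mem_closure_iff_eventually (v := fun s => evg (sg ρ s)) hE hM B hindB] at h3
            exact h3.mono fun s hs _ => hs
        exact (eventually_all_finite (List.finite_toSet _)).2 h1
      obtain ⟨s, ⟨⟨h1, h2⟩, h3⟩, h4⟩ := (((hev1.and hev2).and hev3).and hev4).exists
      have hdis : Disjoint (Submodule.span (L s) (evg (sg ρ s) '' (A : Set G)))
          (Submodule.span (L s) (evg (sg ρ s) '' (B : Set G))) := by
        rw [Finset.coe_union] at h2
        exact ((linearIndepOn_union_iff hAB).1 h2).2.2
      have h5 := tw_eq_zero i (ρ s) (hρ s) _ _ hdis (p₁ :: p₂ :: l') h3 h4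
        (evg_eq_zero (ρ s) (hρ s) _ hprod)
      have h6 : p₁.1 ≠ i := by
        have := hc
        rw [List.isChain_cons_cons] at this
        exact this.1
      rw [tw, if_neg h6, zero_add] at h5
      have h7 : tw (QuotientGroup.mk' (rds G (s + 1)).1) i (p₂ :: l') = 0 := by
        have h8 : (single (QuotientGroup.mk' (rds G (s + 1)).1 p₁.2)⁻¹ 1 : MonoidAlgebra ℤ _) *
            (single (QuotientGroup.mk' (rds G (s + 1)).1 p₁.2) 1 *
              tw (QuotientGroup.mk' (rds G (s + 1)).1) i (p₂ :: l')) = 0 := by
          rw [h5, mul_zero]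
        rwa [← mul_assoc, single_mul_single, inv_mul_cancel, mul_one, ← one_def, one_mul] at h8
      refine tw_ne_zero (QuotientGroup.mk' (rds G (s + 1)).1) i p₂ l' rfl ?_ h7
      intro r hr h8
      refine h1 (p₂ :: r) ?_ (by simp) ?_
      · rw [List.mem_inits]
        simpa using hr
      · rw [List.map_cons, List.prod_cons]
        rw [← map_mul] at h8
        exact (QuotientGroup.eq_one_iff _).1 h8

end Seq

/-- a family of subgroups of `G` without trivial alternating products generates a free product -/
theorem lift_injective {G : Type} [Group G] (N : Subgroup G) [N.Normal] {ι : Type}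
    (A : ι → Subgroup G)
    (h : ∀ l : List (ι × G), (∀ p ∈ l, p.2 ∈ A p.1 ∧ p.2 ∉ N) →
      l.IsChain (fun a b => a.1 ≠ b.1) → l ≠ [] → (l.map Prod.snd).prod ∉ N) :
    Function.Injective (Monoid.CoprodI.lift fun i =>
      ((A i).map (QuotientGroup.mk' N)).subtype) := by
  classical
  rw [injective_iff_map_eq_one]
  intro x hx
  obtain ⟨w, rfl⟩ := Monoid.CoprodI.Word.equiv.symm.surjective x
  change Monoid.CoprodI.lift _ w.prod = 1 at hx
  change w.prod = 1
  by_contra hne
  have hw : w.toList ≠ [] := by
    intro h0
    apply hne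
    rw [Monoid.CoprodI.Word.prod, h0]
    rfl
  have hch : ∀ p : (Σ i, ((A i).map (QuotientGroup.mk' N) : Subgroup (G ⧸ N))),
      ∃ a ∈ A p.1, QuotientGroup.mk' N a = p.2 := fun p => Subgroup.mem_map.1 p.2.2
  choose f hf hf' using hch
  refine h (w.toList.map fun p => (p.1, f p)) ?_ ?_ ?_ ?_
  · intro p hp
    rw [List.mem_map] at hp
    obtain ⟨q, hq, rfl⟩ := hp
    refine ⟨hf q, ?_⟩
    intro h1
    apply w.ne_one q hq
    apply Subtype.ext
    rw [← hf' q]
    exact (QuotientGroup.eq_one_iff _).2 h1
  · rw [List.isChain_map]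
    exact w.chain_ne
  · intro h0
    exact hw (List.map_eq_nil_iff.1 h0)
  · rw [← QuotientGroup.eq_one_iff, ← QuotientGroup.mk'_apply, map_list_prod, List.map_map,
      List.map_map]
    rw [Monoid.CoprodI.Word.prod, map_list_prod, List.map_map] at hx
    rw [← hx]
    congr 1
    apply List.map_congr_left
    intro p _
    simp only [Function.comp_apply, Monoid.CoprodI.lift_of, Subgroup.subtype_apply]
    exact hf' p

end Pool.Agent.Helper70.FS
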