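import Pool.Agent.Helper70.FS.Skew
import Pool.Agent.Helper45.FH.Main
set_option autoImplicit false

/-!
The structure theorem with free products, from an inequality at each level.
-/

open Pool.Agent.Helper72.HG Pool.Agent.Helper35.SH MonoidAlgebra MulOpposite Filter
open Pool.Agent.Helper45.FH

namespace Pool.Agent.Helper70.FS

/-- alternating words in a skew family of flats of `M` are not in `rInf G` -/
def Skew {G : Type} [Group G] (M : Matroid G) : Prop :=
  ∀ (ι : Type) (J : ι → Set G), Pairwise (Function.onFun Disjoint J) → M.Indep (⋃ i, J i) →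
    ∀ l : List (ι × G), (∀ p ∈ l, p.2 ∈ M.closure (J p.1) ∧ p.2 ∉ rInf G) →
      l.IsChain (fun a b => a.1 ≠ b.1) → l ≠ [] → (l.map Prod.snd).prod ∉ rInf G

section Seq

variable {G : Type} [Group G] {L : ℕ → Type} [∀ s, DivisionRing (L s)]
  {ρ : ∀ s, G ⧸ (rds G (s + 1)).1 →* L s} {U : Ultrafilter ℕ}

theorem structure_skew (hU : (U : Filter ℕ) ≤ atTop) (hρ : ∀ s, LinearIndependent ℤ (ρ s))
    {d : ℕ} (x : Fin d → G) (hx : Subgroup.closure (Set.range x) = ⊤) :
    ∃ M : Matroid G, M.E = Set.univ ∧ (∀ g, M.Indep {g} ↔ g ∉ rInf G) ∧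
      (∀ S : Set G, ∃ H : Subgroup G, M.closure S = H ∧
        ∀ g ∈ H, g ∉ rInf G → ∀ h, h * g * h⁻¹ ∈ H → h ∈ H) ∧
      Skew M ∧
      ∀ B : Set G, M.IsBase B → B.Finite ∧
        ∀ᶠ s in (U : Filter ℕ), Module.finrank (L s)ᵐᵒᵖ (Z1 (sg ρ s)) ≤ B.ncard := by
  classical
  obtain ⟨M, hE, hfin, hM⟩ := exists_umat (L := L) (V := fun s => Z1 (sg ρ s) → L s)
    (fun s => evg (sg ρ s)) U
  have hrange : ∃ I : Finset G, M.Indep (I : Set G) ∧ M.closure (I : Set G) = Set.univ := by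
    obtain ⟨I, hI⟩ := M.exists_isBasis (Set.range x) (by rw [hE]; exact Set.subset_univ _)
    have hIf : I.Finite := (Set.finite_range x).subset hI.subset
    obtain ⟨H, hH, _⟩ := closure_finset hU hρ hE hM hIf.toFinset
      (by rw [hIf.coe_toFinset]; exact hI.indep)
    refine ⟨hIf.toFinset, by rw [hIf.coe_toFinset]; exact hI.indep, ?_⟩
    rw [hH]
    have h1 : Set.range x ⊆ H := by
      rw [← hH, hIf.coe_toFinset]
      exact hI.subset_closure
    have h2 : H = ⊤ := by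
      rw [eq_top_iff, ← hx, Subgroup.closure_le]
      exact h1
    rw [h2, Subgroup.coe_top]
  have hrf : M.RankFinite := by
    obtain ⟨I, hI, hI'⟩ := hrange
    have h1 : M.IsBase (I : Set G) := by
      rw [Matroid.isBase_iff_indep_closure_eq]
      exact ⟨hI, by rw [hI', hE]⟩
    exact h1.rankFinite_of_finite I.finite_toSet
  refine ⟨M, hE, ?_, ?_, ?_, ?_⟩
  · intro g
    have h1 := hM {g}
    rw [Finset.coe_singleton] at h1
    rw [h1]
    constructor
    · intro h2 h3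
      obtain ⟨s, hs⟩ := h2.exists
      rw [linearIndepOn_singleton_iff] at hs
      exact hs (evg_eq_zero (ρ s) (hρ s) g h3)
    · intro hg
      refine (eventually_not_mem hU g hg).mono fun s hs => ?_
      rw [linearIndepOn_singleton_iff]
      exact evg_ne_zero (ρ s) (hρ s) g hs
  · intro S
    obtain ⟨I, hI⟩ := M.exists_isBasis S (by rw [hE]; exact Set.subset_univ _)
    have hIf : I.Finite := hI.indep.finite
    obtain ⟨H, hH, hH'⟩ := closure_finset hU hρ hE hM hIf.toFinset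
      (by rw [hIf.coe_toFinset]; exact hI.indep)
    refine ⟨H, ?_, hH'⟩
    rw [← hH, hIf.coe_toFinset]
    exact hI.closure_eq_closure.symm
  · intro ι J hd hJ l hl hc hne
    exact word_not_mem hU hρ hE hM J hd hJ hJ.finite l.length l rfl hl hc hne
  · intro B' hB'
    have hBf : B'.Finite := hB'.finite
    refine ⟨hBf, ?_⟩
    obtain ⟨B, rfl⟩ := hBf.exists_finset_coe
    have h1 : ∀ i, ∀ᶠ s in (U : Filter ℕ),
        evg (sg ρ s) (x i) ∈ Submodule.span (L s) (evg (sg ρ s) '' (B : Set G)) := by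
      intro i
      rw [← mem_closure_iff_eventually (v := fun s => evg (sg ρ s)) hE hM B hB'.indep,
        hB'.closure_eq, hE]
      exact Set.mem_univ _
    refine (eventually_all.2 h1).mono fun s hs => ?_
    rw [Set.ncard_coe_finset]
    apply finrank_le_card_of_span
    intro g
    have h2 : (⊤ : Subgroup G) ≤
        flat (sg ρ s) (Submodule.span (L s) (evg (sg ρ s) '' (B : Set G))) := by
      rw [← hx, Subgroup.closure_le]
      rintro _ ⟨i, rfl⟩
      exact hs i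
    exact h2 (Subgroup.mem_top g)

/-- **The matroid of a group with an Euler characteristic inequality at all large levels.** -/
theorem exists_matroid_of_key [Group.FG G] (hρ : ∀ s, LinearIndependent ℤ (ρ s))
    (w' : ∀ s, G ⧸ (rds G (s + 1)).1 →* ℤˣ) (p q : ℕ)
    (key : ∀ᶠ s in atTop, p ≤ Module.finrank (L s)ᵐᵒᵖ (Z1 (sg ρ s)) +
      Module.finrank (L s)ᵐᵒᵖᵐᵒᵖ (Z1 (sg (fun s => opp (w' s) (ρ s)) s)) + q) :
    ∃ M : Matroid G, M.E = Set.univ ∧ (∀ g, M.Indep {g} ↔ g ∉ rInf G) ∧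
      (∀ S : Set G, ∃ H : Subgroup G, M.closure S = H ∧
        ∀ g ∈ H, g ∉ rInf G → ∀ h, h * g * h⁻¹ ∈ H → h ∈ H) ∧
      Skew M ∧
      ∀ B : Set G, M.IsBase B → B.Finite ∧ p ≤ 2 * B.ncard + q := by
  obtain ⟨S, hS⟩ : ∃ S : Finset G, Subgroup.closure (S : Set G) = ⊤ :=
    (Group.FG.out : (⊤ : Subgroup G).FG)
  obtain ⟨d, x, hx⟩ : ∃ (d : ℕ) (x : Fin d → G), Subgroup.closure (Set.range x) = ⊤ :=
    ⟨S.card, fun i => ((S.equivFin.symm i : S) : G), by
      rw [← hS]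
      congr 1
      ext g
      simp only [Set.mem_range, Finset.mem_coe]
      constructor
      · rintro ⟨i, rfl⟩
        exact (S.equivFin.symm i).2
      · intro hg
        exact ⟨S.equivFin ⟨g, hg⟩, by simp⟩⟩
  have hρ' : ∀ s, LinearIndependent ℤ (opp (w' s) (ρ s)) := fun s =>
    linearIndependent_opp (w' s) (ρ s) (hρ s)
  have hU : ((hyperfilter ℕ : Ultrafilter ℕ) : Filter ℕ) ≤ atTop := Nat.hyperfilter_le_atTop
  have key' := key.filter_mono hU
  have h2 : ∀ᶠ s in ((hyperfilter ℕ : Ultrafilter ℕ) : Filter ℕ),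
      Module.finrank (L s)ᵐᵒᵖᵐᵒᵖ (Z1 (sg (fun s => opp (w' s) (ρ s)) s)) ≤
        Module.finrank (L s)ᵐᵒᵖ (Z1 (sg ρ s)) ∨
      Module.finrank (L s)ᵐᵒᵖ (Z1 (sg ρ s)) ≤
        Module.finrank (L s)ᵐᵒᵖᵐᵒᵖ (Z1 (sg (fun s => opp (w' s) (ρ s)) s)) :=
    Eventually.of_forall fun s => le_total _ _
  rcases Ultrafilter.eventually_or.1 h2 with h3 | h3
  · obtain ⟨M, hM1, hM2, hM3, hM4, hM5⟩ := structure_skew hU hρ x hx
    refine ⟨M, hM1, hM2, hM3, hM4, fun B hB => ?_⟩
    obtain ⟨hBf, hB'⟩ := hM5 B hB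
    refine ⟨hBf, ?_⟩
    obtain ⟨s, ⟨hs1, hs2⟩, hs3⟩ := ((h3.and hB').and key').exists
    omega
  · obtain ⟨M, hM1, hM2, hM3, hM4, hM5⟩ := structure_skew hU hρ' x hx
    refine ⟨M, hM1, hM2, hM3, hM4, fun B hB => ?_⟩
    obtain ⟨hBf, hB'⟩ := hM5 B hB
    refine ⟨hBf, ?_⟩
    obtain ⟨s, ⟨hs1, hs2⟩, hs3⟩ := ((h3.and hB').and key').exists
    omega

end Seq

end Pool.Agent.Helper70.FS
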